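import Pool.Agent.H84.S2.Tg

/-!
# s2l board, NF3: the quadratic part of the equation at a node
helper54
-/

set_option autoImplicit false

namespace Pool.Agent.H54.S2

open MvPolynomial SC
open Pool.Agent.H27.LV (ge deg poleOrder canDeg)
open Pool.Agent.H84.SM (cr dt dp)
open Pool.Agent.H3.SF (Itg Bb BB Hm eu grd hes Sfc Crd Cnn Crf Prm nv)
open Pool.Agent.H84.SF Pool.Agent.H3.S2 Pool.Agent.H84.S2

section Mv

variable {k σ : Type} [Field k]

theorem pdc (i j : σ) (f : MvPolynomial σ k) :
    pderiv i (pderiv j f) = pderiv j (pderiv i f) := by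
  classical
  induction f using MvPolynomial.induction_on with
  | C c => simp only [pderiv_C, map_zero]
  | add p q hp hq => simp only [map_add, hp, hq]
  | mul_X p l hp =>
    simp only [Derivation.leibniz, pderiv_X, map_add, smul_eq_mul, hp]
    have h1 : ∀ a b : σ, pderiv a ((Pi.single b 1 : σ → MvPolynomial σ k) l) = 0 := by
      intro a b
      by_cases h : l = b
      · subst h
        rw [Pi.single_eq_same, pderiv_one]
      · rw [Pi.single_eq_of_ne h, map_zero]
    rw [h1, h1]
    ring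

variable [Fintype σ]

theorem eul (s : σ → k) {p : MvPolynomial σ k} {n : ℕ} (h : p.IsHomogeneous n) :
    ∑ j, eval s (pderiv j p) * s j = n * eval s p := by
  have h1 := congrArg (eval s) h.sum_X_mul_pderiv
  rw [map_sum, nsmul_eq_mul, map_mul, map_natCast] at h1
  rw [← h1]
  refine Finset.sum_congr rfl fun j _ => ?_
  rw [map_mul, eval_X, mul_comm]

/-- Euler for the gradient -/
theorem eul2 (s V : σ → k) {p : MvPolynomial σ k} {n : ℕ} (h : p.IsHomogeneous n)
    (h0 : ∑ i, eval s (pderiv i p) * V i = 0) :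
    ∑ i, ∑ j, eval s (pderiv i (pderiv j p)) * V i * s j = 0 := by
  have h1 : ∀ i, ∑ j, eval s (pderiv i (pderiv j p)) * V i * s j =
      ((n - 1 : ℕ) : k) * (eval s (pderiv i p) * V i) := by
    intro i
    have h2 := eul s (h.pderiv (i := i))
    rw [← mul_assoc, ← h2, Finset.sum_mul]
    refine Finset.sum_congr rfl fun j _ => ?_
    rw [pdc j i]
    ring
  simp only [h1]
  rw [← Finset.mul_sum, h0, mul_zero]

theorem der_mv {O : Type} [CommRing O] [Algebra k O] (D : Derivation k O O) (z : σ → O)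
    (p : MvPolynomial σ k) : D (aeval z p) = ∑ j, aeval z (pderiv j p) * D (z j) := by
  classical
  induction p using MvPolynomial.induction_on with
  | C c =>
    rw [aeval_C, Derivation.map_algebraMap]
    symm
    refine Finset.sum_eq_zero fun j _ => ?_
    rw [pderiv_C, map_zero, zero_mul]
  | add p q hp hq =>
    rw [map_add, map_add, hp, hq, ← Finset.sum_add_distrib]
    refine Finset.sum_congr rfl fun j _ => ?_
    rw [map_add, map_add, add_mul]
  | mul_X p i hp =>
    rw [map_mul, aeval_X, Derivation.leibniz, hp, smul_eq_mul, smul_eq_mul, Finset.mul_sum]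
    have h1 : ∀ j : σ, aeval z (pderiv j (p * X i)) * D (z j) =
        aeval z p * (if j = i then D (z i) else 0) + z i * (aeval z (pderiv j p) * D (z j)) := by
      intro j
      rw [Derivation.leibniz, smul_eq_mul, smul_eq_mul, pderiv_X, map_add, map_mul, map_mul,
        aeval_X]
      by_cases h : j = i
      · subst h
        rw [Pi.single_eq_same, if_pos rfl, map_one]
        ring
      · rw [Pi.single_eq_of_ne (Ne.symm h), if_neg h, map_zero]
        ring
    simp only [h1]
    rw [Finset.sum_add_distrib, ← Finset.mul_sum, ← Finset.mul_sum,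
      Finset.sum_ite_eq' Finset.univ i, if_pos (Finset.mem_univ _)]

/-- the derivative in the direction `V` -/
noncomputable def Gp (s V : σ → k) : MvPolynomial σ k →+ k where
  toFun p := ∑ j, eval s (pderiv j p) * V j
  map_zero' := by simp only [map_zero, zero_mul, Finset.sum_const_zero]
  map_add' p q := by simp only [map_add, add_mul, Finset.sum_add_distrib]

/-- the Hessian -/
noncomputable def Hp (s V Z : σ → k) : MvPolynomial σ k →+ k where
  toFun p := ∑ i, ∑ j, eval s (pderiv i (pderiv j p)) * V i * Z j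
  map_zero' := by simp only [map_zero, zero_mul, Finset.sum_const_zero]
  map_add' p q := by simp only [map_add, add_mul, Finset.sum_add_distrib]

theorem Gp_def (s V : σ → k) (p : MvPolynomial σ k) :
    Gp s V p = ∑ j, eval s (pderiv j p) * V j := rfl

theorem Hp_def (s V Z : σ → k) (p : MvPolynomial σ k) :
    Hp s V Z p = ∑ i, ∑ j, eval s (pderiv i (pderiv j p)) * V i * Z j := rfl

theorem Hp_symm (s V Z : σ → k) (p : MvPolynomial σ k) : Hp s V Z p = Hp s Z V p := by
  rw [Hp_def, Hp_def, Finset.sum_comm]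
  refine Finset.sum_congr rfl fun i _ => Finset.sum_congr rfl fun j _ => ?_
  rw [pdc]
  ring

theorem Gp_lin (s A B C Z : σ → k) (a b c z : k)
    (h : ∀ j, a * A j + b * B j + c * C j + z * Z j = 0) (p : MvPolynomial σ k) :
    a * Gp s A p + b * Gp s B p + c * Gp s C p + z * Gp s Z p = 0 := by
  simp only [Gp_def, Finset.mul_sum, ← Finset.sum_add_distrib]
  refine Finset.sum_eq_zero fun j _ => ?_
  linear_combination eval s (pderiv j p) * h j

theorem Hp_lin (s V A B C Z : σ → k) (a b c z : k)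
    (h : ∀ j, a * A j + b * B j + c * C j + z * Z j = 0) (p : MvPolynomial σ k) :
    a * Hp s V A p + b * Hp s V B p + c * Hp s V C p + z * Hp s V Z p = 0 := by
  simp only [Hp_def, Finset.mul_sum, ← Finset.sum_add_distrib]
  refine Finset.sum_eq_zero fun i _ => Finset.sum_eq_zero fun j _ => ?_
  linear_combination eval s (pderiv i (pderiv j p)) * V i * h j

omit [Fintype σ] in
theorem hsc {F : Type} [Field F] [Algebra k F] {c : F} (z : σ → F) {p : MvPolynomial σ k} {d : ℕ}
    (hp : p.IsHomogeneous d) : aeval (fun i => z i * c) p = aeval z p * c ^ d := by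
  have h1 : ∀ w : σ → F, aeval w p = ∑ m ∈ p.support, algebraMap k F (coeff m p) *
      m.prod fun i e => w i ^ e := fun w => aeval_def w p ▸ eval₂_eq _ _ _
  rw [h1, h1, Finset.sum_mul]
  refine Finset.sum_congr rfl fun m hm => ?_
  rw [mul_assoc]
  congr 1
  have h2 : ∑ i ∈ m.support, m i = d := by
    rw [← hp (mem_support_iff.mp hm), Finsupp.weight_apply, Finsupp.sum]
    refine Finset.sum_congr rfl fun i _ => ?_
    rw [Pi.one_apply, smul_eq_mul, mul_one]
  rw [Finsupp.prod, Finsupp.prod]
  simp only [mul_pow]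
  rw [Finset.prod_mul_distrib, Finset.prod_pow_eq_pow_sum, h2]

end Mv

section Loc

variable {k O : Type} [Field k] [CommRing O] [Algebra k O]

theorem mem3 {I : Ideal O} {x y z : O} (hx : x ∈ I) (hy : y ∈ I) (hz : z ∈ I) :
    x * y * z ∈ I ^ 3 := by
  have h : I ^ 3 = I * I * I := by ring
  rw [h]
  exact Ideal.mul_mem_mul (Ideal.mul_mem_mul hx hy) hz

/-- the quadratic part of an element of the square of the maximal ideal -/
theorem quad (ε : O →ₐ[k] k) (X Y : O) (dX dY : Derivation k O O) (h : Frm ε X Y dX dY) (g : O)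
    (h0 : ε g = 0) (h1 : ε (dX g) = 0) (h2 : ε (dY g) = 0) : ∃ a b c : k,
    g - (a • X ^ 2 + b • (X * Y) + c • Y ^ 2) ∈ Ideal.span {X, Y} ^ 3 ∧
    ε (dX (dX g)) = 2 * a ∧ ε (dX (dY g)) = b ∧ ε (dY (dY g)) = 2 * c := by
  have hX : ε X = 0 := (h.max X).2 ⟨1, 0, by ring⟩
  have hY : ε Y = 0 := (h.max Y).2 ⟨0, 1, by ring⟩
  obtain ⟨α, β, rfl⟩ := (h.max g).1 h0
  have e1 : ε α = 0 := by
    rw [map_add, Derivation.leibniz, Derivation.leibniz, h.xx, h.xg] at h1
    simp only [smul_eq_mul, map_add, map_mul, map_zero, map_one, hX, hY] at h1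
    linear_combination h1
  have e2 : ε β = 0 := by
    rw [map_add, Derivation.leibniz, Derivation.leibniz, h.gx, h.gg] at h2
    simp only [smul_eq_mul, map_add, map_mul, map_zero, map_one, hX, hY] at h2
    linear_combination h2
  obtain ⟨α1, α2, rfl⟩ := (h.max α).1 e1
  obtain ⟨β1, β2, rfl⟩ := (h.max β).1 e2
  have key : ∀ γ : O, ∃ p q : O, γ = algebraMap k O (ε γ) + (p * X + q * Y) := by
    intro γ
    obtain ⟨p, q, hpq⟩ := (h.max (γ - algebraMap k O (ε γ))).1 (by
      rw [map_sub, AlgHom.commutes, Algebra.algebraMap_self_apply, sub_self])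
    exact ⟨p, q, by rw [← hpq]; ring⟩
  obtain ⟨p1, q1, k1⟩ := key α1
  obtain ⟨p2, q2, k2⟩ := key α2
  obtain ⟨p3, q3, k3⟩ := key β1
  obtain ⟨p4, q4, k4⟩ := key β2
  refine ⟨ε α1, ε α2 + ε β1, ε β2, ?_, ?_, ?_, ?_⟩
  · have mX : X ∈ Ideal.span {X, Y} := Ideal.subset_span (Set.mem_insert _ _)
    have mY : Y ∈ Ideal.span {X, Y} := Ideal.subset_span (Set.mem_insert_of_mem _ rfl)
    have mm : ∀ p q : O, p * X + q * Y ∈ Ideal.span {X, Y} := fun p q =>
      add_mem (Ideal.mul_mem_left _ _ mX) (Ideal.mul_mem_left _ _ mY)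
    have e : (α1 * X + α2 * Y) * X + (β1 * X + β2 * Y) * Y -
        (ε α1 • X ^ 2 + (ε α2 + ε β1) • (X * Y) + ε β2 • Y ^ 2) =
        (p1 * X + q1 * Y) * X * X + (p2 * X + q2 * Y) * X * Y + (p3 * X + q3 * Y) * X * Y +
          (p4 * X + q4 * Y) * Y * Y := by
      rw [Algebra.smul_def, Algebra.smul_def, Algebra.smul_def, map_add]
      linear_combination X ^ 2 * k1 + X * Y * k2 + X * Y * k3 + Y ^ 2 * k4
    rw [e]
    exact add_mem (add_mem (add_mem (mem3 (mm _ _) mX mX) (mem3 (mm _ _) mX mY))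
      (mem3 (mm _ _) mX mY)) (mem3 (mm _ _) mY mY)
  · simp only [map_add, Derivation.leibniz, smul_eq_mul, h.xx, h.xg, map_mul, map_zero, map_one,
      hX, hY, mul_zero, zero_mul, add_zero, zero_add, mul_one, Derivation.map_one_eq_zero]
    ring
  · simp only [map_add, Derivation.leibniz, smul_eq_mul, h.xx, h.xg, h.gx, h.gg, map_mul,
      map_zero, map_one, hX, hY, mul_zero, zero_mul, add_zero, zero_add, mul_one,
      Derivation.map_one_eq_zero]
    try ring
  · simp only [map_add, Derivation.leibniz, smul_eq_mul, h.xx, h.xg, h.gx, h.gg, map_mul,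
      map_zero, map_one, hX, hY, mul_zero, zero_mul, add_zero, zero_add, mul_one,
      Derivation.map_one_eq_zero]
    ring

end Loc

theorem pf_NF3 : T_NF3 := by
  intro k F σ _ _ _ _ _ _ _ X dd s hs hC L0 L1 L2 cX cY ε x1 y1 dX dY hL2 hF m GP hGP hGs hN Gs
    hGv
  have hL : aeval X L0 ≠ 0 := fun h => hF.v0 (hC.pt _ h)
  have hc0 : eval s L0 ≠ 0 := hF.v0
  have hc1 : algebraMap k F (eval s L0) ≠ 0 := by
    rw [Ne, map_eq_zero]
    exact hc0
  -- the coordinates
  have hR : ∀ i, Rep X (X i * (algebraMap k F (eval s L0) / aeval X L0)) 1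
      (C (eval s L0) * MvPolynomial.X i) L0 := by
    intro i
    refine ⟨?_, hF.l0, ?_⟩
    · have h1 := (isHomogeneous_C σ (eval s L0)).mul (isHomogeneous_X k i)
      rw [zero_add] at h1
      exact h1
    · rw [map_mul, aeval_X, aeval_C]
      field_simp
  have hw : ∀ i, X i * (algebraMap k F (eval s L0) / aeval X L0) ∈ Os X s :=
    fun i => ⟨1, _, _, hR i, hc0⟩
  obtain ⟨w, hwd⟩ : ∃ w : σ → Os X s, ∀ i, (w i : F) =
      X i * (algebraMap k F (eval s L0) / aeval X L0) := ⟨fun i => ⟨_, hw i⟩, fun i => rfl⟩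
  have hws : ∀ i, ε (w i) = s i := by
    intro i
    have h1 := hF.eps (w i) 1 _ _ (by rw [hwd]; exact hR i)
    rw [map_mul, eval_C, eval_X, mul_comm] at h1
    exact mul_left_cancel₀ hc0 h1
  have hev : ∀ f : MvPolynomial σ k, ε (aeval w f) = eval s f := by
    intro f
    rw [← AlgHom.comp_apply, comp_aeval]
    have : (fun i => ε (w i)) = s := funext hws
    simp only [this]
    rfl
  have hcoe : ∀ f : MvPolynomial σ k, ((aeval w f : Os X s) : F) =
      aeval (fun i => X i * (algebraMap k F (eval s L0) / aeval X L0)) f := by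
    intro f
    have h1 : ((aeval w f : Os X s) : F) = (Os X s).val (aeval w f) := rfl
    rw [h1, ← AlgHom.comp_apply, comp_aeval]
    have : (fun i => (Os X s).val (w i)) =
      fun i => X i * (algebraMap k F (eval s L0) / aeval X L0) := funext hwd
    rw [this]
  have hhom : ∀ (f : MvPolynomial σ k) (d : ℕ), f.IsHomogeneous d →
      ((aeval w f : Os X s) : F) =
        aeval X f * (algebraMap k F (eval s L0) / aeval X L0) ^ d := by
    intro f d hf
    rw [hcoe, hsc X hf]
  have hker : ∀ f : MvPolynomial σ k, aeval X f = 0 → aeval w f = 0 := by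
    intro f hf
    apply Subtype.ext
    rw [← sum_homogeneousComponent f, map_sum, AddSubmonoidClass.coe_finsetSum, ZeroMemClass.coe_zero]
    refine Finset.sum_eq_zero fun d _ => ?_
    rw [hhom _ d (homogeneousComponent_isHomogeneous d f), hC.hom f d hf, zero_mul]
  obtain ⟨f, hf0, hfg, hfn⟩ := hN.ex
  have hfs : ∀ d, eval s (homogeneousComponent d f) = 0 := fun d => hC.pt _ (hC.hom f d hf0)
  -- the value of the equation
  have hval : aeval w (GP - f) = (eval s L0 ^ m) • Gs := by
    rw [map_sub, hker f hf0, sub_zero]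
    apply Subtype.ext
    have h1 : ((eval s L0 ^ m • Gs : Os X s) : F) =
        algebraMap k F (eval s L0 ^ m) * (Gs : F) := by
      rw [← Algebra.smul_def]
      rfl
    rw [hhom GP m hGP, ← hGv, h1, map_pow, div_pow]
    field_simp
  -- derivatives
  have hd1 : ∀ (D : Derivation k (Os X s) (Os X s)) (p : MvPolynomial σ k),
      ε (D (aeval w p)) = Gp s (fun j => ε (D (w j))) p := by
    intro D p
    rw [der_mv, map_sum]
    exact Finset.sum_congr rfl fun j _ => by rw [map_mul, hev]
  have hd2 : ∀ D E : Derivation k (Os X s) (Os X s), ε (D (E (aeval w (GP - f)))) =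
      Hp s (fun j => ε (D (w j))) (fun j => ε (E (w j))) (GP - f) := by
    intro D E
    rw [der_mv, map_sum, map_sum, Hp_def, Finset.sum_comm]
    refine Finset.sum_congr rfl fun j _ => ?_
    rw [Derivation.leibniz, map_add, smul_eq_mul, smul_eq_mul, map_mul, map_mul, hev, hfg,
      zero_mul, zero_add, hd1, Gp_def, Finset.mul_sum]
    exact Finset.sum_congr rfl fun i _ => by ring
  obtain ⟨A, hA⟩ : ∃ A : σ → k, A = fun j => ε (dX (w j)) := ⟨_, rfl⟩
  obtain ⟨B, hB⟩ : ∃ B : σ → k, B = fun j => ε (dY (w j)) := ⟨_, rfl⟩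
  -- tangent vectors
  have hTA : TgY X s A := fun p hp => by
    have h1 := hd1 dX p
    rw [hker p hp, map_zero, map_zero, ← hA] at h1
    exact h1.symm
  have hTB : TgY X s B := fun p hp => by
    have h1 := hd1 dY p
    rw [hker p hp, map_zero, map_zero, ← hB] at h1
    exact h1.symm
  have hTs : TgY X s s := fun p hp => by
    have h1 : Gp s s p = 0 := by
      rw [← sum_homogeneousComponent p, map_sum]
      refine Finset.sum_eq_zero fun d _ => ?_
      rw [Gp_def, eul s (homogeneousComponent_isHomogeneous d p), hC.pt _ (hC.hom p d hp),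
        mul_zero]
    exact h1
  -- Euler
  have hE : ∀ V : σ → k, TgY X s V → Hp s V s (GP - f) = 0 := by
    intro V hV
    have h1 : Gp s V GP = 0 := by
      have h2 : Gp s V (GP - f) = 0 := by
        rw [Gp_def]
        refine Finset.sum_eq_zero fun j _ => ?_
        rw [hfg, zero_mul]
      have h3 : Gp s V f = 0 := hV f hf0
      rw [map_sub, h3, sub_zero] at h2
      exact h2
    have h4 : Hp s V s f = 0 := by
      rw [← sum_homogeneousComponent f, map_sum]
      refine Finset.sum_eq_zero fun d _ => ?_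
      exact eul2 s V (homogeneousComponent_isHomogeneous d f) (hV _ (hC.hom f d hf0))
    have h5 : Hp s V s GP = 0 := eul2 s V hGP h1
    rw [map_sub, h4, h5, sub_zero]
  -- linear forms
  have hl : ∀ (L : MvPolynomial σ k) (h : Os X s), L.IsHomogeneous 1 →
      (h : F) * aeval X L0 = aeval X L → aeval w L = eval s L0 • h := by
    intro L h hL1 hh
    apply Subtype.ext
    have h1 : ((eval s L0 • h : Os X s) : F) = algebraMap k F (eval s L0) * (h : F) := by
      rw [← Algebra.smul_def]
      rfl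
    rw [hhom L 1 hL1, ← hh, h1, pow_one]
    field_simp
  have hl1 := hl L1 x1 hF.l1 hF.eX
  have hl2 := hl L2 y1 hL2 (by rw [← hF.eG, pow_one])
  have hl0 := hl L0 1 hF.l0 (by rw [OneMemClass.coe_one, one_mul])
  have hsm : ∀ (D : Derivation k (Os X s) (Os X s)) (c : k) (h : Os X s),
      ε (D (c • h)) = c * ε (D h) := by
    intro D c h
    rw [Derivation.map_smul, _root_.map_smul, smul_eq_mul]
  have g1A : Gp s A L1 = eval s L0 := by
    rw [hA, ← hd1, hl1, hsm, hF.frm.xx, map_one, mul_one]
  have g1B : Gp s B L1 = 0 := by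
    rw [hB, ← hd1, hl1, hsm, hF.frm.gx, map_zero, mul_zero]
  have g1s : Gp s s L1 = 0 := by
    rw [Gp_def, eul s hF.l1, hF.v1, mul_zero]
  have g2A : Gp s A L2 = 0 := by
    rw [hA, ← hd1, hl2, hsm, hF.frm.xg, map_zero, mul_zero]
  have g2B : Gp s B L2 = eval s L0 := by
    rw [hB, ← hd1, hl2, hsm, hF.frm.gg, map_one, mul_one]
  have g2s : Gp s s L2 = 0 := by
    rw [Gp_def, eul s hL2, hF.vG, mul_zero]
  have g0A : Gp s A L0 = 0 := by
    rw [hA, ← hd1, hl0, hsm, Derivation.map_one_eq_zero, map_zero, mul_zero]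
  have g0B : Gp s B L0 = 0 := by
    rw [hB, ← hd1, hl0, hsm, Derivation.map_one_eq_zero, map_zero, mul_zero]
  have g0s : Gp s s L0 = eval s L0 := by
    rw [Gp_def, eul s hF.l0, Nat.cast_one, one_mul]
  -- the tangent space is generated by A, B, s
  have hT : ∀ Z : σ → k, TgY X s Z → ∃ a b c z : k, z ≠ 0 ∧
      ∀ j, a * A j + b * B j + c * s j + z * Z j = 0 := by
    intro Z hZ
    have h1 := hN.dim ![A, B, s, Z] (by
      intro i
      fin_cases i
      · exact hTA
      · exact hTB
      · exact hTs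
      · exact hZ)
    rw [Fintype.not_linearIndependent_iff] at h1
    obtain ⟨g, hg, i, hi⟩ := h1
    have h2 : ∀ j, g 0 * A j + g 1 * B j + g 2 * s j + g 3 * Z j = 0 := by
      intro j
      have h3 := congrFun hg j
      rw [Fin.sum_univ_four] at h3
      exact h3
    refine ⟨g 0, g 1, g 2, g 3, fun h3 => ?_, h2⟩
    have e1 := Gp_lin s A B s Z _ _ _ _ h2 L1
    have e2 := Gp_lin s A B s Z _ _ _ _ h2 L2
    have e0 := Gp_lin s A B s Z _ _ _ _ h2 L0
    rw [g1A, g1B, g1s, h3] at e1
    rw [g2A, g2B, g2s, h3] at e2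
    rw [g0A, g0B, g0s, h3] at e0
    have f1 : g 0 = 0 := by
      have h4 : g 0 * eval s L0 = 0 := by linear_combination e1
      exact (mul_eq_zero.1 h4).resolve_right hc0
    have f2 : g 1 = 0 := by
      have h4 : g 1 * eval s L0 = 0 := by linear_combination e2
      exact (mul_eq_zero.1 h4).resolve_right hc0
    have f3 : g 2 = 0 := by
      have h4 : g 2 * eval s L0 = 0 := by linear_combination e0
      exact (mul_eq_zero.1 h4).resolve_right hc0
    fin_cases i
    · exact hi f1
    · exact hi f2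
    · exact hi f3
    · exact hi h3
  -- the quadratic part
  obtain ⟨a, b, c, hq, hxx, hxy, hyy⟩ := quad ε x1 y1 dX dY hF.frm (aeval w (GP - f))
    (by rw [hev, map_sub, hGs, hC.pt f hf0, sub_zero])
    (by
      rw [hd1, Gp_def]
      refine Finset.sum_eq_zero fun j _ => ?_
      rw [hfg, zero_mul])
    (by
      rw [hd1, Gp_def]
      refine Finset.sum_eq_zero fun j _ => ?_
      rw [hfg, zero_mul])
  rw [hd2, ← hA] at hxx
  rw [hd2, ← hA, ← hB] at hxy
  rw [hd2, ← hB] at hyy
  have hne : b ^ 2 - 4 * a * c ≠ 0 := by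
    intro hdis
    obtain ⟨x, y, hxy0, e1, e2⟩ : ∃ x y : k, (x ≠ 0 ∨ y ≠ 0) ∧ 2 * a * x + b * y = 0 ∧
        b * x + 2 * c * y = 0 := by
      by_cases h : b = 0 ∧ a = 0
      · obtain ⟨rfl, rfl⟩ := h
        exact ⟨1, 0, Or.inl one_ne_zero, by ring, by ring⟩
      · refine ⟨b, -2 * a, ?_, by ring, by linear_combination hdis⟩
        rw [not_and_or] at h
        rcases h with h | h
        · exact Or.inl h
        · exact Or.inr (mul_ne_zero (by norm_num) h)
    obtain ⟨V, hV⟩ : ∃ V : σ → k, ∀ j, x * A j + y * B j + 0 * s j + (-1) * V j = 0 :=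
      ⟨fun j => x * A j + y * B j, fun j => by ring⟩
    have hTV : TgY X s V := by
      intro p hp
      have h1 := Gp_lin s A B s V _ _ _ _ hV p
      have h2 : Gp s A p = 0 := hTA p hp
      have h3 : Gp s B p = 0 := hTB p hp
      have h4 : Gp s s p = 0 := hTs p hp
      rw [h2, h3, h4] at h1
      have h5 : Gp s V p = 0 := by linear_combination -h1
      exact h5
    have hVA : Hp s V A (GP - f) = 0 := by
      have h1 := Hp_lin s A A B s V _ _ _ _ hV (GP - f)
      rw [hxx, hxy] at h1
      rw [Hp_symm]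
      linear_combination e1 - h1
    have hVB : Hp s V B (GP - f) = 0 := by
      have h1 := Hp_lin s B A B s V _ _ _ _ hV (GP - f)
      rw [hyy, Hp_symm s B A, hxy] at h1
      rw [Hp_symm]
      linear_combination e2 - h1
    have hVs := hE V hTV
    obtain ⟨μ, hμ⟩ := hfn V hTV (by
      intro Z hZ
      obtain ⟨a1, a2, a3, z, hz, h1⟩ := hT Z hZ
      have h2 := Hp_lin s V A B s Z _ _ _ _ h1 (GP - f)
      rw [hVA, hVB, hVs] at h2
      have h3 : z * Hp s V Z (GP - f) = 0 := by linear_combination h2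
      exact (mul_eq_zero.1 h3).resolve_left hz)
    have hμ' : ∀ j, x * A j + y * B j + (-μ) * s j + 0 * V j = 0 := by
      intro j
      have h1 := hV j
      rw [hμ] at h1
      have h2 : (μ • s) j = μ * s j := rfl
      rw [h2] at h1
      linear_combination h1
    have k1 := Gp_lin s A B s V _ _ _ _ hμ' L1
    have k2 := Gp_lin s A B s V _ _ _ _ hμ' L2
    rw [g1A, g1B, g1s] at k1
    rw [g2A, g2B, g2s] at k2
    have f1 : x = 0 := by
      have h4 : x * eval s L0 = 0 := by linear_combination k1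
      exact (mul_eq_zero.1 h4).resolve_right hc0
    have f2 : y = 0 := by
      have h4 : y * eval s L0 = 0 := by linear_combination k2
      exact (mul_eq_zero.1 h4).resolve_right hc0
    rcases hxy0 with h | h
    · exact h f1
    · exact h f2
  have hcm : eval s L0 ^ m ≠ 0 := pow_ne_zero _ hc0
  refine ⟨(eval s L0 ^ m)⁻¹ * a, (eval s L0 ^ m)⁻¹ * b, (eval s L0 ^ m)⁻¹ * c, ?_, ?_⟩
  · have e : ((eval s L0 ^ m)⁻¹ * b) ^ 2 - 4 * ((eval s L0 ^ m)⁻¹ * a) *
        ((eval s L0 ^ m)⁻¹ * c) = ((eval s L0 ^ m)⁻¹) ^ 2 * (b ^ 2 - 4 * a * c) := by ring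
    rw [e]
    exact mul_ne_zero (pow_ne_zero _ (inv_ne_zero hcm)) hne
  · rw [hval] at hq
    have h1 := Ideal.mul_mem_left _ (algebraMap k (Os X s) (eval s L0 ^ m)⁻¹) hq
    rw [← Algebra.smul_def, smul_sub, smul_smul, inv_mul_cancel₀ hcm, one_smul, smul_add,
      smul_add, smul_smul, smul_smul, smul_smul] at h1
    exact h1

end Pool.Agent.H54.S2
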